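import Pool.Agent.Helper40_Dio.AStmt

set_option autoImplicit false

namespace Pool.Agent.DIO.H19

lemma euler_of (h : GapStatement) {x y c : ℕ} (hx : 0 < x) (hxy : x < y) (hyc : y < c)
    (h1 : IsSquare (x * y + 1)) (h2 : IsSquare (x * c + 1)) (h3 : IsSquare (y * c + 1))
    (hc : c < 4 * y) : ∃ r, r * r = x * y + 1 ∧ c = x + y + 2 * r := by
  rcases h x y c ⟨hx, hxy, hyc, h1, h2, h3⟩ with ⟨r, -, -, h4, h5⟩ | ⟨e, he, -, -, -, -, -, h6⟩
  · exact ⟨r, h4, h5⟩
  · exfalso
    have h7 : 4 * y ≤ 4 * x * y * e := by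
      have h8 : 1 ≤ x * e := Nat.mul_pos hx he
      calc 4 * y = 4 * y * 1 := by ring
        _ ≤ 4 * y * (x * e) := Nat.mul_le_mul_left _ h8
        _ = 4 * x * y * e := by ring
    omega

lemma no_three (h : GapStatement) {w x y c : ℕ} (hw : 0 < w) (hwx : w < x) (hxy : x < y)
    (hyc : y < c) (h1 : IsSquare (x * y + 1)) (h2 : IsSquare (x * c + 1))
    (h3 : IsSquare (y * c + 1)) (h4 : IsSquare (w * y + 1)) (h5 : IsSquare (w * c + 1))
    (hc : c < 4 * y) : False := by
  obtain ⟨r, hr, hr'⟩ := euler_of h (hw.trans hwx) hxy hyc h1 h2 h3 hc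
  obtain ⟨s, hs, hs'⟩ := euler_of h hw (hwx.trans hxy) hyc h4 h5 h3 hc
  have h6 : w * y < x * y := Nat.mul_lt_mul_of_pos_right hwx (by omega)
  have h7 : s < r := by
    by_contra hcon
    have : r * r ≤ s * s := Nat.mul_le_mul (by omega) (by omega)
    omega
  omega

/-- NSE -/
theorem nse (h : GapStatement) : NseStatement := by
  rintro a b c r d ⟨ha, hab, hr, hc⟩ hdc ⟨hd, hda, hdb, -, h1, h2, h3⟩
  have hrb : r ≤ b := by
    by_contra hcon
    have h4 : (b + 1) * (b + 1) ≤ r * r := Nat.mul_le_mul (by omega) (by omega)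
    have h5 : a * b ≤ b * b := Nat.mul_le_mul_right b hab.le
    nlinarith
  have hc4 : c < 4 * b := by omega
  have hbc : b < c := by omega
  have sab : IsSquare (a * b + 1) := ⟨r, hr.symm⟩
  have sac : IsSquare (a * c + 1) := ⟨a + r, by rw [hc]; nlinarith⟩
  have sbc : IsSquare (b * c + 1) := ⟨b + r, by rw [hc]; nlinarith⟩
  have sda : IsSquare (d * a + 1) := by rwa [mul_comm] at h1
  have sdb : IsSquare (d * b + 1) := by rwa [mul_comm] at h2
  have sdc : IsSquare (d * c + 1) := by rwa [mul_comm] at h3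
  rcases lt_or_gt_of_ne hda with h6 | h6
  · exact no_three h hd h6 hab hbc sab sac sbc sdb sdc hc4
  · rcases lt_or_gt_of_ne hdb with h7 | h7
    · exact no_three h ha h6 h7 hbc sdb sdc sbc sab sac hc4
    · exact no_three h ha hab h7 hdc h2 sbc sdc h1 sac (by omega)

end Pool.Agent.DIO.H19
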